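import Pool.Agent.H84.ND.Targets2
import Pool.Agent.H92.SM.LCA
import Pool.Agent.H73.SM.LatR

/-!
# MP_70ba79_ag: contact of a solution of a connection with a nodal curve at a node (row LCN)
-/

set_option autoImplicit false

namespace Pool.Agent.H21.ND

open MvPolynomial SC Pool.Agent.H84.SM Pool.Agent.H84.ND
open Pool.Agent.H92.OD Pool.Agent.H92.SM
open Pool.Agent.H27.LV (ge poleOrder)

/-! ### Derivatives of the form in the affine coordinates -/

section Der

/-- chain rule -/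
theorem chainM {k R σ : Type} [Field k] [CommRing R] [Algebra k R] [Fintype σ]
    (D : Derivation k R R) (x : σ → R) (P : MvPolynomial σ k) :
    D (aeval x P) = ∑ i, aeval x (pderiv i P) * D (x i) := by
  classical
  induction P using MvPolynomial.induction_on with
  | C a =>
    rw [algHom_C, D.map_algebraMap]
    simp
  | add p q hp hq =>
    simp only [map_add, hp, hq, add_mul, Finset.sum_add_distrib]
  | mul_X p s hp =>
    simp only [map_mul, aeval_X, Derivation.leibniz, smul_eq_mul, hp, map_add, pderiv_X,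
      add_mul, Finset.sum_add_distrib]
    congr 1
    · rw [Finset.sum_eq_single s]
      · simp
      · intro j _ hj
        rw [Pi.single_eq_of_ne' hj]
        simp
      · simp
    · rw [Finset.mul_sum]
      refine Finset.sum_congr rfl fun i _ => ?_
      ring

variable {k : Type} [Field k]

theorem der0 (P : MvPolynomial (Fin 3) k) (u0 u1 u2 : Fin 3 → k) :
    pderiv 0 (gU P u0 u1 u2) = ∑ i, C (u1 i) * gU (pderiv i P) u0 u1 u2 := by
  unfold gU
  rw [chainM]
  refine Finset.sum_congr rfl fun i _ => ?_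
  have h : pderiv (0 : Fin 2) (pa u0 u1 u2 (X 0) (X 1) i : MvPolynomial (Fin 2) k) = C (u1 i) := by
    unfold pa
    simp only [algebraMap_eq, map_add, Derivation.leibniz, pderiv_C, smul_eq_mul, mul_zero,
      pderiv_X_self, zero_add, mul_one]
    rw [pderiv_X_of_ne (by decide), mul_zero, add_zero]
  rw [h, mul_comm]

theorem der1 (P : MvPolynomial (Fin 3) k) (u0 u1 u2 : Fin 3 → k) :
    pderiv 1 (gU P u0 u1 u2) = ∑ i, C (u2 i) * gU (pderiv i P) u0 u1 u2 := by
  unfold gU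
  rw [chainM]
  refine Finset.sum_congr rfl fun i _ => ?_
  have h : pderiv (1 : Fin 2) (pa u0 u1 u2 (X 0) (X 1) i : MvPolynomial (Fin 2) k) = C (u2 i) := by
    unfold pa
    simp only [algebraMap_eq, map_add, Derivation.leibniz, pderiv_C, smul_eq_mul, mul_zero,
      pderiv_X_self, zero_add, mul_one]
    rw [pderiv_X_of_ne (by decide), mul_zero, zero_add]
  rw [h, mul_comm]

theorem ev0 (P : MvPolynomial (Fin 3) k) (u0 u1 u2 : Fin 3 → k) :
    eval ![0, 0] (gU P u0 u1 u2) = eval u0 P := by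
  have h := aeval_gU (L := k) P u0 u1 u2 0 0
  rw [aeval_eq_eval] at h
  have h2 : (pa u0 u1 u2 0 0 : Fin 3 → k) = u0 := by
    funext i
    unfold pa
    simp
  rw [h2, aeval_eq_eval] at h
  exact h

/-- the second derivative at `s` -/
noncomputable def Qf (G : MvPolynomial (Fin 3) k) (s y z : Fin 3 → k) : k :=
  ∑ i, ∑ j, eval s (pderiv j (pderiv i G)) * y i * z j

theorem ev00 (G : MvPolynomial (Fin 3) k) (u0 u1 u2 : Fin 3 → k) :
    eval ![0, 0] (pderiv 0 (pderiv 0 (gU G u0 u1 u2))) = Qf G u0 u1 u1 := by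
  rw [der0, map_sum, map_sum]
  unfold Qf
  refine Finset.sum_congr rfl fun i _ => ?_
  rw [Derivation.leibniz, pderiv_C, smul_zero, add_zero, smul_eq_mul, map_mul, eval_C, der0,
    map_sum, Finset.mul_sum]
  refine Finset.sum_congr rfl fun j _ => ?_
  rw [map_mul, eval_C, ev0]
  ring

theorem ev11 (G : MvPolynomial (Fin 3) k) (u0 u1 u2 : Fin 3 → k) :
    eval ![0, 0] (pderiv 1 (pderiv 1 (gU G u0 u1 u2))) = Qf G u0 u2 u2 := by
  rw [der1, map_sum, map_sum]
  unfold Qf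
  refine Finset.sum_congr rfl fun i _ => ?_
  rw [Derivation.leibniz, pderiv_C, smul_zero, add_zero, smul_eq_mul, map_mul, eval_C, der1,
    map_sum, Finset.mul_sum]
  refine Finset.sum_congr rfl fun j _ => ?_
  rw [map_mul, eval_C, ev0]
  ring

theorem ev01 (G : MvPolynomial (Fin 3) k) (u0 u1 u2 : Fin 3 → k) :
    eval ![0, 0] (pderiv 0 (pderiv 1 (gU G u0 u1 u2))) = Qf G u0 u2 u1 := by
  rw [der1, map_sum, map_sum]
  unfold Qf
  refine Finset.sum_congr rfl fun i _ => ?_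
  rw [Derivation.leibniz, pderiv_C, smul_zero, add_zero, smul_eq_mul, map_mul, eval_C, der0,
    map_sum, Finset.mul_sum]
  refine Finset.sum_congr rfl fun j _ => ?_
  rw [map_mul, eval_C, ev0]
  ring

theorem pd_comm (i j : Fin 3) (G : MvPolynomial (Fin 3) k) :
    pderiv i (pderiv j G) = pderiv j (pderiv i G) := by
  classical
  induction G using MvPolynomial.induction_on with
  | C a => simp
  | add p q hp hq => rw [map_add, map_add, map_add, map_add, hp, hq]
  | mul_X p s hp =>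
    simp only [Derivation.leibniz, smul_eq_mul, map_add, hp, pderiv_X]
    have h1 : ∀ i j : Fin 3, pderiv i (Pi.single (M := fun _ => MvPolynomial (Fin 3) k) j 1 s) = 0 := by
      intro i j
      by_cases h : j = s
      · subst h
        rw [Pi.single_eq_same]
        exact Derivation.map_one_eq_zero _
      · rw [Pi.single_eq_of_ne' h, map_zero]
    rw [h1, h1]
    ring

end Der

/-! ### Frames at a node -/

section Frames

variable {k : Type} [Field k]

theorem dp_e (a b : Fin 3 → k) : dp a b = a 0 * b 0 + a 1 * b 1 + a 2 * b 2 := by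
  unfold dp
  rw [Fin.sum_univ_three]

theorem dt_e (a b c : Fin 3 → k) : dt a b c = a 0 * (b 1 * c 2 - b 2 * c 1) +
    a 1 * (b 2 * c 0 - b 0 * c 2) + a 2 * (b 0 * c 1 - b 1 * c 0) := by
  unfold dt
  rw [dp_e]
  rfl

theorem zero_of_dp {s e f w : Fin 3 → k} (h : dt s e f ≠ 0) (h1 : dp w s = 0) (h2 : dp w e = 0)
    (h3 : dp w f = 0) : w = 0 := by
  rw [dt_e] at h
  rw [dp_e] at h1 h2 h3
  have key : ∀ i, (s 0 * (e 1 * f 2 - e 2 * f 1) + s 1 * (e 2 * f 0 - e 0 * f 2) +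
      s 2 * (e 0 * f 1 - e 1 * f 0)) * w i = 0 := by
    intro i
    fin_cases i
    · show _ * w 0 = 0
      linear_combination (e 1 * f 2 - e 2 * f 1) * h1 + (f 1 * s 2 - f 2 * s 1) * h2 +
        (s 1 * e 2 - s 2 * e 1) * h3
    · show _ * w 1 = 0
      linear_combination (e 2 * f 0 - e 0 * f 2) * h1 + (f 2 * s 0 - f 0 * s 2) * h2 +
        (s 2 * e 0 - s 0 * e 2) * h3
    · show _ * w 2 = 0
      linear_combination (e 0 * f 1 - e 1 * f 0) * h1 + (f 0 * s 1 - f 1 * s 0) * h2 +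
        (s 0 * e 1 - s 1 * e 0) * h3
  funext i
  exact (mul_eq_zero.1 (key i)).resolve_left h

theorem exists_frame0 {s : Fin 3 → k} (hs : s ≠ 0) : ∃ e f : Fin 3 → k, dt s e f ≠ 0 := by
  obtain ⟨i, hi⟩ : ∃ i, s i ≠ 0 := by
    by_contra hcon
    push Not at hcon
    exact hs (funext hcon)
  refine ⟨Pi.single (i + 1) 1, Pi.single (i + 2) 1, ?_⟩
  fin_cases i <;> simpa [dt, dp, cr, Fin.sum_univ_three, Pi.single_apply] using hi

/-- the second derivative as a linear form -/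
noncomputable def Hv (G : MvPolynomial (Fin 3) k) (s y : Fin 3 → k) : Fin 3 → k :=
  fun i => ∑ j, eval s (pderiv i (pderiv j G)) * y j

theorem Qf_eq (G : MvPolynomial (Fin 3) k) (s y z : Fin 3 → k) : Qf G s y z = dp (Hv G s y) z := by
  unfold Qf dp Hv
  rw [Finset.sum_comm]
  refine Finset.sum_congr rfl fun i _ => ?_
  rw [Finset.sum_mul]

theorem Qf_symm (G : MvPolynomial (Fin 3) k) (s y z : Fin 3 → k) : Qf G s y z = Qf G s z y := by
  unfold Qf
  rw [Finset.sum_comm]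
  refine Finset.sum_congr rfl fun i _ => Finset.sum_congr rfl fun j _ => ?_
  rw [pd_comm]
  ring

theorem Qf_add (G : MvPolynomial (Fin 3) k) (s y z w : Fin 3 → k) (t : k) :
    Qf G s (fun i => y i + t * z i) w = Qf G s y w + t * Qf G s z w := by
  unfold Qf
  rw [Finset.mul_sum, ← Finset.sum_add_distrib]
  refine Finset.sum_congr rfl fun i _ => ?_
  rw [Finset.mul_sum, ← Finset.sum_add_distrib]
  refine Finset.sum_congr rfl fun j _ => ?_
  ring

theorem Qf_add' (G : MvPolynomial (Fin 3) k) (s y z w : Fin 3 → k) (t : k) :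
    Qf G s w (fun i => y i + t * z i) = Qf G s w y + t * Qf G s w z := by
  rw [Qf_symm, Qf_add, Qf_symm G s y, Qf_symm G s z]

/-- the point is in the kernel of the second derivative -/
theorem Hv_self {G : MvPolynomial (Fin 3) k} {d : ℕ} (hG : G.IsHomogeneous d) {s : Fin 3 → k}
    (hs : Sing G s) : Hv G s s = 0 := by
  funext i
  have h1 := (hG.pderiv (i := i)).sum_X_mul_pderiv
  have h2 := congrArg (eval s) h1
  rw [map_sum, map_nsmul, hs.2 i, smul_zero] at h2
  show ∑ j, eval s (pderiv i (pderiv j G)) * s j = 0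
  rw [← h2]
  refine Finset.sum_congr rfl fun j _ => ?_
  rw [map_mul, eval_X, pd_comm i j]
  ring

/-- good frames at a node -/
theorem frameN [CharZero k] {G : MvPolynomial (Fin 3) k} {d : ℕ} (hG : G.IsHomogeneous d)
    {s : Fin 3 → k} (hN : Node G s) : ∃ e f : Fin 3 → k, dt s e f ≠ 0 ∧ Qf G s e e ≠ 0 ∧
    Qf G s f f ≠ 0 ∧ Qf G s e e * Qf G s f f - Qf G s e f ^ 2 ≠ 0 := by
  obtain ⟨e0, f0, h0⟩ := exists_frame0 hN.sing.1
  obtain ⟨p, hp⟩ : ∃ p, p = Qf G s e0 e0 := ⟨_, rfl⟩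
  obtain ⟨q, hq⟩ : ∃ q, q = Qf G s e0 f0 := ⟨_, rfl⟩
  obtain ⟨r, hr⟩ : ∃ r, r = Qf G s f0 f0 := ⟨_, rfl⟩
  -- the form is not degenerate
  have key : ∀ a b : k, a * p + b * q = 0 → a * q + b * r = 0 → a = 0 ∧ b = 0 := by
    intro a b h1 h2
    obtain ⟨y, hy⟩ : ∃ y : Fin 3 → k, y = fun i => a * e0 i + b * f0 i := ⟨_, rfl⟩
    have hyw : ∀ w, Qf G s y w = a * Qf G s e0 w + b * Qf G s f0 w := by
      intro w
      have e1 : y = fun i => (fun i => a * e0 i) i + b * f0 i := hy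
      have e2 : (fun i => a * e0 i : Fin 3 → k) = fun i => (fun _ => (0 : k)) i + a * e0 i := by
        funext i
        simp
      rw [e1, Qf_add, e2, Qf_add]
      have e3 : Qf G s (fun _ => (0 : k)) w = 0 := by
        unfold Qf
        simp
      rw [e3, zero_add]
    have hz : Hv G s y = 0 := by
      refine zero_of_dp h0 ?_ ?_ ?_
      · rw [← Qf_eq, Qf_symm, Qf_eq, Hv_self hG hN.sing, dp_e]
        simp
      · rw [← Qf_eq, hyw, ← hp, Qf_symm, ← hq]
        exact h1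
      · rw [← Qf_eq, hyw, ← hq, ← hr]
        exact h2
    obtain ⟨c, hc⟩ := hN.ker y fun i => congrFun hz i
    have hci : ∀ i, a * e0 i + b * f0 i = c * s i := by
      intro i
      have := congrFun hc i
      rw [hy] at this
      exact this
    rw [dt_e] at h0
    have g0 := hci 0
    have g1 := hci 1
    have g2 := hci 2
    constructor
    · refine (mul_eq_zero.1 ?_).resolve_right h0
      linear_combination (s 2 * f0 1 - s 1 * f0 2) * g0 + (s 0 * f0 2 - s 2 * f0 0) * g1 +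
        (s 1 * f0 0 - s 0 * f0 1) * g2
    · refine (mul_eq_zero.1 ?_).resolve_right h0
      linear_combination (s 1 * e0 2 - s 2 * e0 1) * g0 + (s 2 * e0 0 - s 0 * e0 2) * g1 +
        (s 0 * e0 1 - s 1 * e0 0) * g2
  have hdet : p * r - q ^ 2 ≠ 0 := by
    intro h
    have h1 := key q (-p) (by ring) (by linear_combination -h)
    have hq0 : q = 0 := h1.1
    have hp0 : p = 0 := neg_eq_zero.1 h1.2
    have h2 := key 1 0 (by rw [hp0]; ring) (by rw [hq0]; ring)
    exact one_ne_zero h2.1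
  obtain ⟨P, hP⟩ : ∃ P : Polynomial k, P = Polynomial.C p + Polynomial.C (2 * q) * Polynomial.X +
      Polynomial.C r * Polynomial.X ^ 2 := ⟨_, rfl⟩
  have hev : ∀ t, P.eval t = p + 2 * q * t + r * t ^ 2 := by
    intro t
    rw [hP]
    simp
  have hP0 : P ≠ 0 := by
    intro h
    have c0 := hev 0
    have c1 := hev 1
    have c2 := hev (-1)
    rw [h, Polynomial.eval_zero] at c0 c1 c2
    have hp0 : p = 0 := by linear_combination -c0
    have hq0 : q = 0 := by
      have h4 : (4 : k) ≠ 0 := by norm_num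
      have : 4 * q = 0 := by linear_combination c2 - c1
      exact (mul_eq_zero.1 this).resolve_left h4
    apply hdet
    rw [hp0, hq0]
    ring
  have : Infinite k := inferInstance
  classical
  obtain ⟨t, ht⟩ := Infinite.exists_notMem_finset P.roots.toFinset
  obtain ⟨t', ht'⟩ := Infinite.exists_notMem_finset (insert t P.roots.toFinset)
  rw [Finset.mem_insert, not_or] at ht'
  have hroot : ∀ t, t ∉ P.roots.toFinset → p + 2 * q * t + r * t ^ 2 ≠ 0 := by
    intro t ht h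
    apply ht
    rw [Multiset.mem_toFinset, Polynomial.mem_roots hP0, Polynomial.IsRoot, hev, h]
  have hee : ∀ a b : k, Qf G s (fun i => e0 i + a * f0 i) (fun i => e0 i + b * f0 i) =
      p + (a + b) * q + a * b * r := by
    intro a b
    rw [Qf_add, Qf_add', Qf_add', ← hp, ← hq, Qf_symm G s f0 e0, ← hq, ← hr]
    ring
  refine ⟨fun i => e0 i + t * f0 i, fun i => e0 i + t' * f0 i, ?_, ?_, ?_, ?_⟩
  · have e1 : dt s (fun i => e0 i + t * f0 i) (fun i => e0 i + t' * f0 i) =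
        (t' - t) * dt s e0 f0 := by
      rw [dt_e, dt_e]
      ring
    rw [e1]
    exact mul_ne_zero (sub_ne_zero.2 ht'.1) h0
  · rw [hee]
    have := hroot t ht
    intro h
    apply this
    linear_combination h
  · rw [hee]
    have := hroot t' ht'.2
    intro h
    apply this
    linear_combination h
  · rw [hee, hee, hee]
    have e1 : (p + (t + t) * q + t * t * r) * (p + (t' + t') * q + t' * t' * r) -
        (p + (t + t') * q + t * t' * r) ^ 2 = (t' - t) ^ 2 * (p * r - q ^ 2) := by ring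
    rw [e1]
    exact mul_ne_zero (pow_ne_zero _ (sub_ne_zero.2 ht'.1)) hdet

end Frames

/-! ### The place -/

section Place

theorem setup (hBRG : T_BRG) (hAFE : T_AFE) (hCRE : T_CRE) (hCEN : T_CEN)
    (hLTN : Pool.Agent.H3.OD.T_LTN) (k : Type) [Field k] [IsAlgClosed k] [CharZero k]
    (G : MvPolynomial (Fin 3) k) (α : ℕ) (A : MvPolynomial (Fin 3) k) (b : A2 k)
    (hC : Conn G α A b) (u0 u1 u2 : Fin 3 → k) (hu0 : u0 ≠ 0)
    (K : Type) [Field K] [Algebra k K] [Algebra.EssFiniteType k K] (htr : Algebra.trdeg k K = 1)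
    (D : Derivation k K K) (hD : D ≠ 0) (x : Fin 3 → K) (v : DV k K) (hx1 : ∃ j, x j = 1)
    (hP : Prim k x) (hE : CEq D A b x) (z : K)
    (hz : z ≠ 0) (hzs : ∀ i, ge v 1 (z * x i - algebraMap k K (u0 i))) (l0 X Y : K) (hl0 : l0 ≠ 0)
    (hxl : ∀ i, x i = l0 * pa u0 u1 u2 X Y i) (hzl : v.ord (z * l0) = 0) (hX : 0 < v.ord X) :
    ∃ (n : ℕ) (Ph : K →ₐ[k] HS k), 0 < n ∧ v.ord X = n ∧ Lat n (Ph Y) ∧
      (∀ z, z ≠ 0 → IsO (Ph z) ((v.ord z : ℚ) / n)) ∧
      Sol (aU A u0 u1 u2) (bU b u0 u1 u2) (Ph Y) ∧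
      (∀ (e : ℕ) (P : MvPolynomial (Fin 3) k), P.IsHomogeneous e → aeval x P ≠ 0 →
        IsO (aeval ![uu k, Ph Y] (gU P u0 u1 u2)) ((nord v x e P : ℚ) / n)) ∧
      ∀ N : ℕ, 1 ≤ N → Lat N (Ph Y) → n ≤ N := by
  obtain ⟨n, hn⟩ : ∃ n : ℕ, v.ord X = n := ⟨(v.ord X).toNat, (Int.toNat_of_nonneg hX.le).symm⟩
  have hn0 : 0 < n := by rw [hn] at hX; exact_mod_cast hX
  have hnQ : (0 : ℚ) < n := by exact_mod_cast hn0
  have hX0 : X ≠ 0 := by
    rintro rfl
    rw [v.ord_zero] at hX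
    exact lt_irrefl _ hX
  have hDX : D X ≠ 0 := by
    intro h
    obtain ⟨c, hc⟩ := Pool.Agent.H27.LV.ker k K htr D hD X h
    rw [← hc, v.ord_base] at hX
    exact lt_irrefl _ hX
  obtain ⟨D1, hD1⟩ : ∃ D1 : Derivation k K K, D1 = (X / D X) • D := ⟨_, rfl⟩
  have hD1X : D1 X = X := by
    rw [hD1]
    show X / D X * D X = X
    exact div_mul_cancel₀ _ hDX
  -- the equation in affine coordinates
  have hE1 : aeval ![X, Y] (aU A u0 u1 u2) * ((D1 (D1 Y) - D1 Y) / X ^ 2) +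
      aeval ![X, Y, D1 Y / X] (bU b u0 u1 u2) = 0 := by
    have h1 := hCRE k K D α A b x 1 (X / D X) hC.hA hC.hb hC.inv
    simp only [one_mul, one_pow] at h1
    have h2 : aeval x A * dt x (fun i => D (x i)) (fun i => D (D (x i))) +
      aeval (Sum.elim x fun i => D (x i)) b = 0 := hE
    rw [h2, mul_zero, ← hD1, hAFE k K D1 α A b u0 u1 u2 x l0 X Y hC.hA hC.hb hC.inv hl0 hX0 hD1X
      hxl] at h1
    exact (mul_eq_zero.1 h1).resolve_left
      (mul_ne_zero (pow_ne_zero _ hl0) (pow_ne_zero _ hX0))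
  obtain ⟨Ph, hPu, hPl, hPo, hPD⟩ := hBRG k K htr v X n hn0 hn D1 hD1X
  have hP2 : ∀ P : MvPolynomial (Fin 2) k, Ph (aeval ![X, Y] P) = aeval ![uu k, Ph Y] P := by
    intro P
    rw [← AlgHom.comp_apply, comp_aeval]
    refine congrArg (fun f : Fin 2 → HS k => aeval f P) (funext fun i => ?_)
    fin_cases i
    · exact hPu
    · rfl
  have hP3 : ∀ (w : K) (P : MvPolynomial (Fin 3) k),
      Ph (aeval ![X, Y, w] P) = aeval ![uu k, Ph Y, Ph w] P := by
    intro w P
    rw [← AlgHom.comp_apply, comp_aeval]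
    refine congrArg (fun f : Fin 3 → HS k => aeval f P) (funext fun i => ?_)
    fin_cases i
    · exact hPu
    · rfl
    · rfl
  have hinv : ∀ y : HS k, y / uu k ^ 2 = sg (-2) 1 * y := by
    intro y
    have h1 : sg (-2) 1 * uu k ^ 2 = 1 := by
      rw [uu_pow, sg_mul_sg, one_mul, ← sg_zero_one]
      norm_num
    rw [div_eq_iff (fun h => by rw [h, mul_zero] at h1; exact zero_ne_one h1)]
    linear_combination (-y) * h1
  have hinv1 : ∀ y : HS k, y / uu k = sg (-1) 1 * y := by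
    intro y
    have h1 : sg (-1) 1 * uu k = 1 := by
      unfold uu
      rw [sg_mul_sg, one_mul, ← sg_zero_one]
      norm_num
    rw [div_eq_iff (fun h => by rw [h, mul_zero] at h1; exact zero_ne_one h1)]
    linear_combination (-y) * h1
  have hSol : Sol (aU A u0 u1 u2) (bU b u0 u1 u2) (Ph Y) := by
    have h1 := congrArg Ph hE1
    rw [map_zero, map_add, map_mul, hP2, hP3, map_div₀, map_div₀, map_pow, hPu, map_sub, hPD, hPD,
      hinv, hinv1] at h1
    exact h1
  refine ⟨n, Ph, hn0, hn, hPl Y, hPo, hSol, ?_, ?_⟩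
  · intro e P hPe hPx
    have h1 : ∀ i, z * x i = (z * l0) * pa u0 u1 u2 X Y i := fun i => by rw [hxl i, mul_assoc]
    have h2 : aeval (fun i => z * x i) P = (z * l0) ^ e * aeval ![X, Y] (gU P u0 u1 u2) := by
      rw [aeval_gU, ← aeval_hom' hPe]
      exact congrArg (fun f : Fin 3 → K => aeval f P) (funext h1)
    have h3 : aeval (fun i => z * x i) P ≠ 0 := by
      rw [aeval_hom' hPe]
      exact mul_ne_zero (pow_ne_zero _ hz) hPx
    have h4 : aeval ![X, Y] (gU P u0 u1 u2) ≠ 0 := fun h => h3 (by rw [h2, h, mul_zero])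
    have h5 := (((hCEN k K htr v x hx1).2 u0 hu0 z hz hzs).2 e P hPe hPx).1
    have h6 : nord v x e P = v.ord (aeval ![X, Y] (gU P u0 u1 u2)) := by
      rw [h5, h2, v.ord_mul _ _ (pow_ne_zero _ (mul_ne_zero hz hl0)) h4, v.ord_pow, hzl, mul_zero,
        zero_add]
    rw [h6, ← hP2]
    exact hPo _ h4
  · intro N hN hYN
    obtain ⟨L, hL⟩ := hLTN k N hN
    have hYL : Ph Y ∈ L := (hL _).2 hYN
    have hXL : Ph X ∈ L := by
      rw [hPu]
      exact (hL _).2 (lat_uu N)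
    have hpaL : ∀ i, Ph (pa u0 u1 u2 X Y i) ∈ L := by
      intro i
      unfold pa
      rw [map_add, map_add, map_mul, map_mul, AlgHom.commutes, AlgHom.commutes, AlgHom.commutes]
      exact add_mem (add_mem (L.algebraMap_mem _) (mul_mem hXL (L.algebraMap_mem _)))
        (mul_mem hYL (L.algebraMap_mem _))
    have hl0L : Ph l0 ∈ L := by
      obtain ⟨j, hj⟩ := hx1
      have h4 : l0 = (pa u0 u1 u2 X Y j)⁻¹ := by
        rw [hxl j] at hj
        exact eq_inv_of_mul_eq_one_left hj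
      rw [h4, map_inv₀]
      exact inv_mem (hpaL j)
    have hall : ∀ z : K, Ph z ∈ L := by
      intro z
      have h4 : IntermediateField.adjoin k (Set.range x) ≤ L.comap Ph := by
        rw [IntermediateField.adjoin_le_iff]
        rintro _ ⟨i, rfl⟩
        show Ph (x i) ∈ L
        rw [hxl i, map_mul]
        exact mul_mem hl0L (hpaL i)
      have h5 : IntermediateField.adjoin k (Set.range x) = ⊤ := hP
      rw [h5] at h4
      exact h4 IntermediateField.mem_top
    have h4 := hPo v.unif v.unif_ne_zero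
    rw [v.ord_unif] at h4
    obtain ⟨m, hm⟩ := (hL _).1 (hall v.unif) _ h4.1
    have h5 : (N : ℤ) = m * n := by
      have h6 : (N : ℚ) = m * n := by
        rw [← hm]
        field_simp
        push_cast
        ring
      exact_mod_cast h6
    have hdvd : (n : ℤ) ∣ (N : ℤ) := ⟨m, by rw [h5]; ring⟩
    have h7 : (n : ℤ) ≤ (N : ℤ) := Int.le_of_dvd (by exact_mod_cast hN) hdvd
    exact_mod_cast h7

/-- one branch -/
theorem branch {k : Type} [Field k] [CharZero k] {A' : MvPolynomial (Fin 2) k}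
    {b' : MvPolynomial (Fin 3) k} {φ : HS k} {a N : ℕ} (hB : Bas A' b' φ a)
    (hR : ∀ U : HS k, Near a U → (∃ n : ℕ, 0 < n ∧ Lat n U) →
      Sol A' b' (φ + U) → Lat N U ∧ ∀ μ : ℚ, IsO U μ → μ ≤ N) {y : HS k} {n : ℕ} (hn : 0 < n)
    (hyl : Lat n y) (hy1 : geO 1 y) (hS : Sol A' b' y) {μ o : ℚ} (hμ : IsO (y - φ) μ)
    (hA : IsO (aeval ![uu k, y] A') o) : (Lat N y ∧ μ ≤ N) ∨ μ ≤ o := by
  obtain ⟨U, hU⟩ : ∃ U, U = y - φ := ⟨_, rfl⟩
  have hyU : y = φ + U := by rw [hU]; ring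
  rw [← hU] at hμ
  have hU1 : geO 1 U := by
    rw [hU]
    exact geO_sub hy1 hB.pos
  have hφ0 : geO 0 φ := geO_mono hB.pos zero_le_one
  have huu0 : geO 0 (uu k) := geO_mono geO_uu zero_le_one
  by_cases ha : (a : ℚ) < μ
  · left
    have hlatU : Lat n U := by
      rw [hU]
      exact lat_sub hyl (lat_one hB.lat)
    obtain ⟨h1, h2⟩ := hR U ⟨hU1, μ, ha, hμ.2⟩ ⟨n, hn, hlatU⟩ (by rw [← hyU]; exact hS)
    refine ⟨?_, h2 μ hμ⟩
    rw [hyU]
    exact Pool.Agent.H73.SM.lat_add (lat_one hB.lat) h1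
  · right
    obtain ⟨-, -, R, hR0, hR1⟩ := tay A' (uu k) φ U huu0 hφ0 (geO_mono hU1 zero_le_one)
    have h2 : geO μ (aeval ![uu k, φ + U] A' - aeval ![uu k, φ] A') := by
      rw [hR1]
      have h3 := geO_mul hμ.2 hR0
      rwa [add_zero] at h3
    have h4 : geO μ (aeval ![uu k, φ + U] A') := by
      have h5 := geO_add h2 (geO_mono hB.ord.2 (not_lt.1 ha))
      rwa [sub_add_cancel] at h5
    rw [← hyU] at h4
    by_contra hcon
    exact hA.1 (h4 o (not_le.1 hcon))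

end Place

/-! ### Contact at a node -/

section Main

/-- the final estimate -/
theorem fin_case {n N : ℕ} {μ : ℚ} {g a : ℤ} {P : Prop} (hn : 0 < n) (hμ : 1 ≤ μ)
    (hg : (g : ℚ) = n * (1 + μ)) (h : (P ∧ μ ≤ N) ∨ μ ≤ (a : ℚ) / n) (hP : P → n ≤ N) :
    g ≤ 2 * a ∨ g ≤ N * (1 + N) := by
  have hnQ : (0 : ℚ) < n := by exact_mod_cast hn
  rcases h with ⟨h1, h2⟩ | h1
  · right
    have h3 : (n : ℚ) ≤ N := by exact_mod_cast hP h1
    have h4 : (g : ℚ) ≤ N * (1 + N) := by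
      rw [hg]
      exact mul_le_mul h3 (by linarith) (by linarith) (Nat.cast_nonneg N)
    exact_mod_cast h4
  · left
    rw [le_div_iff₀ hnQ] at h1
    have h4 : (g : ℚ) ≤ 2 * a := by
      rw [hg]
      nlinarith
    exact_mod_cast h4

theorem frame_bound (hBRN : T_BRN) (hBAN : T_BAN) (hBRG : T_BRG) (hRAM : T_RAM) (hAFE : T_AFE)
    (hCRE : T_CRE) (hCEN : T_CEN) (k : Type) [Field k] [IsAlgClosed k] [CharZero k]
    (G : MvPolynomial (Fin 3) k) (d α : ℕ) (A : MvPolynomial (Fin 3) k) (b : A2 k)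
    (hI : Ird G d) (hC : Conn G α A b) (hα : α < d) (s : Fin 3 → k) (hs : Sing G s)
    (e f : Fin 3 → k) (hdt : dt s e f ≠ 0) (hff : Qf G s f f ≠ 0)
    (hdet : Qf G s e e * Qf G s f f - Qf G s e f ^ 2 ≠ 0) : ∃ C : ℕ,
    ∀ (K : Type) [Field K] [Algebra k K] [Algebra.EssFiniteType k K], Algebra.trdeg k K = 1 →
    ∀ (D : Derivation k K K), D ≠ 0 → ∀ (x : Fin 3 → K) (v : DV k K), (∃ j, x j = 1) →
    Prim k x → aeval x G ≠ 0 → aeval x A ≠ 0 → CEq D A b x → ∀ z : K, z ≠ 0 →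
    (∀ i, ge v 1 (z * x i - algebraMap k K (s i))) → ∀ l0 X Y : K, l0 ≠ 0 →
    (∀ i, x i = l0 * pa s e f X Y i) → v.ord (z * l0) = 0 → 0 < v.ord X → Y ≠ 0 →
    v.ord X ≤ v.ord Y → nord v x d G ≤ 2 * nord v x α A ∨ nord v x d G ≤ C := by
  have hGs : eval s G = 0 := by
    have h := congrArg (eval s) hI.hom.sum_X_mul_pderiv
    rw [map_sum, map_nsmul] at h
    have h0 : ∑ i, eval s (X i * pderiv i G) = 0 :=
      Finset.sum_eq_zero fun i _ => by rw [map_mul, hs.2 i, mul_zero]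
    rw [h0] at h
    have hd : d ≠ 0 := by
      have := hI.two
      omega
    have h1 := h.symm
    rw [nsmul_eq_mul] at h1
    exact (mul_eq_zero.1 h1).resolve_left (by exact_mod_cast hd)
  obtain ⟨φ1, φ2, hl1, hl2, hg1, hg2, h12, hz1, hz2, hbr⟩ := hBRN k (gU G s e f)
    (by rw [ev0]; exact hGs)
    (by
      rw [der0, map_sum]
      exact Finset.sum_eq_zero fun i _ => by rw [map_mul, ev0, hs.2 i, mul_zero])
    (by
      rw [der1, map_sum]
      exact Finset.sum_eq_zero fun i _ => by rw [map_mul, ev0, hs.2 i, mul_zero])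
    (by rw [ev11]; exact hff)
    (by rw [ev00, ev11, ev01, Qf_symm G s f e]; exact hdet)
  obtain ⟨a1, hB1, -, -⟩ := hBAN k G d α A b hI hC hα s e f hdt φ1 hl1 hg1 hz1
  obtain ⟨a2, hB2, -, -⟩ := hBAN k G d α A b hI hC hα s e f hdt φ2 hl2 hg2 hz2
  obtain ⟨N1, hN1, -, hR1⟩ := hRAM k _ _ φ1 a1 hB1
  obtain ⟨N2, hN2, -, hR2⟩ := hRAM k _ _ φ2 a2 hB2
  refine ⟨N1 * (1 + N1) + N2 * (1 + N2), ?_⟩
  intro K _ _ _ htr D hD x v hx1 hP hG1 hA1 hE z hz hzs l0 X Y hl0 hxl hzl hX hY0 hXY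
  obtain ⟨n, Ph, hn0, hn, hyl, hPo, hS, hval, hgen⟩ := setup hBRG hAFE hCRE hCEN
    Pool.Agent.H34.OD2.pf_LTN k G α A b hC s e f hs.1 K htr D hD x v hx1 hP hE z hz hzs l0 X Y hl0
    hxl hzl hX
  have hnQ : (0 : ℚ) < n := by exact_mod_cast hn0
  obtain ⟨y, hy⟩ : ∃ y, y = Ph Y := ⟨_, rfl⟩
  have hy1 : geO 1 y := by
    rw [hy]
    refine geO_mono (hPo Y hY0).2 ?_
    rw [le_div_iff₀ hnQ, one_mul]
    rw [hn] at hXY
    exact_mod_cast hXY
  rw [← hy] at hyl hS hval hgen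
  have hGy := hval d G hI.hom hG1
  have hAy := hval α A hC.hA hA1
  have hne1 : y - φ1 ≠ 0 := by
    intro h
    rw [sub_eq_zero.1 h] at hGy
    exact hGy.ne_zero hz1
  have hne2 : y - φ2 ≠ 0 := by
    intro h
    rw [sub_eq_zero.1 h] at hGy
    exact hGy.ne_zero hz2
  obtain ⟨μ1, hμ1⟩ := exists_IsO hne1
  obtain ⟨μ2, hμ2⟩ := exists_IsO hne2
  have hμ11 : 1 ≤ μ1 := by
    by_contra hcon
    exact hμ1.1 (geO_sub hy1 hg1 μ1 (not_le.1 hcon))
  have hμ21 : 1 ≤ μ2 := by
    by_contra hcon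
    exact hμ2.1 (geO_sub hy1 hg2 μ2 (not_le.1 hcon))
  have hmin : μ1 = 1 ∨ μ2 = 1 := by
    by_contra hcon
    push Not at hcon
    have h1 : 1 < μ1 := lt_of_le_of_ne hμ11 (Ne.symm hcon.1)
    have h2 : 1 < μ2 := lt_of_le_of_ne hμ21 (Ne.symm hcon.2)
    apply h12.1
    have h3 : φ1 - φ2 = (y - φ2) - (y - φ1) := by ring
    rw [h3, cf_sub, hμ2.2 1 h2, hμ1.2 1 h1, sub_zero]
  have hsum := (hbr y μ1 μ2 hy1 hμ1 hμ2).unique hGy
  have hnord : (nord v x d G : ℚ) = n * (μ1 + μ2) := by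
    rw [hsum]
    field_simp
  have hAy' : IsO (aeval ![uu k, y] (aU A s e f)) ((nord v x α A : ℚ) / n) := by
    unfold aU
    rw [map_mul, aeval_C]
    have h2 : IsO (algebraMap k (HS k) (dt s e f)) 0 := by
      rw [algebraMap_HS]
      exact ⟨by rw [cf_sg, if_pos rfl]; simpa using hdt, geO_sg _ _⟩
    have h4 := h2.mul hAy
    rw [zero_add] at h4
    exact h4
  rcases hmin with h | h
  · have h5 := branch hB2 hR2 hn0 hyl hy1 hS hμ2 hAy'
    rcases fin_case hn0 hμ21 (by rw [hnord, h]) h5 (hgen N2 hN2) with h6 | h6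
    · exact Or.inl h6
    · right
      push_cast
      nlinarith
  · have h5 := branch hB1 hR1 hn0 hyl hy1 hS hμ1 hAy'
    rcases fin_case hn0 hμ11 (by rw [hnord, h]; ring) h5 (hgen N1 hN1) with h6 | h6
    · exact Or.inl h6
    · right
      push_cast
      nlinarith

/-- LCN: contact at a node -/
theorem pf_LCN (hBRN : T_BRN) (hBAN : T_BAN) (hBRG : T_BRG) (hRAM : T_RAM) (hAFE : T_AFE)
    (hCRE : T_CRE) (hCEN : T_CEN) : T_LCN := by
  intro k _ _ _ G d α A b hI hC hα s hN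
  obtain ⟨e, f, hdt, hee, hff, hdet⟩ := frameN hI.hom hN
  obtain ⟨C1, h1⟩ := frame_bound hBRN hBAN hBRG hRAM hAFE hCRE hCEN k G d α A b hI hC hα s hN.sing
    e f hdt hff hdet
  have hdt' : dt s f e ≠ 0 := by
    have h : dt s f e = -dt s e f := by
      rw [dt_e, dt_e]
      ring
    rw [h]
    exact neg_ne_zero.2 hdt
  obtain ⟨C2, h2⟩ := frame_bound hBRN hBAN hBRG hRAM hAFE hCRE hCEN k G d α A b hI hC hα s hN.sing
    f e hdt' hee (by rw [Qf_symm G s f e, mul_comm]; exact hdet)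
  refine ⟨C1 + C2, ?_⟩
  intro K _ _ _ htr D hD x v hx1 hP hNL hG1 hA1 hE hcen
  obtain ⟨z, hz, hzs⟩ := hcen
  obtain ⟨a0, b1, b2, g00, g10, g20, hn1, hn2, hx⟩ := dual s e f hdt
  obtain ⟨l0, hl0⟩ : ∃ l, l = ∑ j, algebraMap k K (a0 j) * x j := ⟨_, rfl⟩
  obtain ⟨l1, hl1⟩ : ∃ l, l = ∑ j, algebraMap k K (b1 j) * x j := ⟨_, rfl⟩
  obtain ⟨l2, hl2⟩ : ∃ l, l = ∑ j, algebraMap k K (b2 j) * x j := ⟨_, rfl⟩
  have g0 := lin_ge hzs a0
  have g1 := lin_ge hzs b1
  have g2 := lin_ge hzs b2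
  have hx' := hx K x
  rw [← hl0, g00, map_one] at g0
  rw [← hl1, g10, map_zero, sub_zero] at g1
  rw [← hl2, g20, map_zero, sub_zero] at g2
  rw [← hl0, ← hl1, ← hl2] at hx'
  have hl1ne : l1 ≠ 0 := by rw [hl1]; exact hNL b1 hn1
  have hl2ne : l2 ≠ 0 := by rw [hl2]; exact hNL b2 hn2
  have hzl : v.ord (z * l0) = 0 ∧ z * l0 ≠ 0 := by
    have e : (1 : K) + (z * l0 - 1) = z * l0 := by ring
    have h3 := v.ord_add_eq_left (x := (1 : K)) (y := z * l0 - 1) one_ne_zero (fun h => by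
      rw [v.ord_one]
      have := g0.resolve_left h
      omega)
    rw [e, v.ord_one] at h3
    exact ⟨h3.2, h3.1⟩
  have hl0ne : l0 ≠ 0 := fun h => hzl.2 (by rw [h, mul_zero])
  have hord : ∀ l, l ≠ 0 → ge v 1 (z * l) → 1 ≤ v.ord (l / l0) := by
    intro l hl hg
    have h3 := hg.resolve_left (mul_ne_zero hz hl)
    have h4 := hzl.1
    rw [v.ord_mul _ _ hz hl] at h3
    rw [v.ord_mul _ _ hz hl0ne] at h4
    rw [v.ord_div hl hl0ne]
    omega
  have hX := hord l1 hl1ne g1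
  have hY := hord l2 hl2ne g2
  rcases le_total (v.ord (l1 / l0)) (v.ord (l2 / l0)) with hle | hle
  · have hxl : ∀ i, x i = l0 * pa s e f (l1 / l0) (l2 / l0) i := by
      intro i
      unfold pa
      rw [hx' i]
      field_simp
    rcases h1 K htr D hD x v hx1 hP hG1 hA1 hE z hz hzs l0 (l1 / l0) (l2 / l0) hl0ne hxl hzl.1
      (by omega) (div_ne_zero hl2ne hl0ne) hle with h | h
    · exact Or.inl h
    · right
      push_cast
      omega
  · have hxl : ∀ i, x i = l0 * pa s f e (l2 / l0) (l1 / l0) i := by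
      intro i
      unfold pa
      rw [hx' i]
      field_simp
      ring
    rcases h2 K htr D hD x v hx1 hP hG1 hA1 hE z hz hzs l0 (l2 / l0) (l1 / l0) hl0ne hxl hzl.1
      (by omega) (div_ne_zero hl1ne hl0ne) hle with h | h
    · exact Or.inl h
    · right
      push_cast
      omega

end Main

end Pool.Agent.H21.ND
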