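import Pool.Agent.H84.ND.Targets2
import Pool.Agent.H42.SM.GPR
import Pool.Agent.H16.SM.JPC

/-!
# MP_70ba79_ag: divisibility by powers of `G` for the substitution at a node (row NDV)
-/

set_option autoImplicit false

namespace Pool.Agent.H21.ND.V

open MvPolynomial SC Pool.Agent.H84.SM Pool.Agent.H84.ND

/-! ### Factors of a squarefree form -/

section Fac

variable {k : Type} [Field k]

theorem const_of_pderiv [CharZero k] {P : MvPolynomial (Fin 3) k} (h : ∀ i, pderiv i P = 0) :
    P = C (coeff 0 P) := by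
  classical
  ext m
  rw [coeff_C]
  by_cases hm : 0 = m
  · rw [if_pos hm, ← hm]
  · rw [if_neg hm]
    obtain ⟨i, hi⟩ : ∃ i, m i ≠ 0 := by
      by_contra hcon
      push Not at hcon
      exact hm (Finsupp.ext fun i => (hcon i).symm)
    have h1 := congrArg (coeff (m - Finsupp.single i 1)) (h i)
    rw [coeff_pderiv, coeff_zero] at h1
    have h2 : m - Finsupp.single i 1 + Finsupp.single i 1 = m := by
      ext j
      simp only [Finsupp.add_apply, Finsupp.tsub_apply]
      by_cases hj : i = j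
      · subst hj
        rw [Finsupp.single_eq_same]
        omega
      · rw [Finsupp.single_eq_of_ne (Ne.symm hj)]
        omega
    rw [h2] at h1
    refine (mul_eq_zero.1 h1).resolve_right ?_
    rw [Finsupp.tsub_apply, Finsupp.single_eq_same]
    have h3 : ((m i - 1 : ℕ) : k) + 1 = ((m i : ℕ) : k) := by
      have h4 : m i = m i - 1 + 1 := by omega
      conv_rhs => rw [h4]
      push_cast
      rfl
    rw [h3]
    exact_mod_cast hi

theorem not_dvd_pderiv {P : MvPolynomial (Fin 3) k} {i : Fin 3} (h : pderiv i P ≠ 0) :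
    ¬ P ∣ pderiv i P := by
  rintro ⟨Q, hQ⟩
  have hP : P ≠ 0 := by
    rintro rfl
    exact h (map_zero _)
  have hQ0 : Q ≠ 0 := by
    rintro rfl
    rw [mul_zero] at hQ
    exact h hQ
  have h1 : (pderiv i P).totalDegree = P.totalDegree + Q.totalDegree := by
    rw [hQ, totalDegree_mul_of_isDomain hP hQ0]
  obtain ⟨m, hm, hm'⟩ : ∃ m ∈ (pderiv i P).support,
      (pderiv i P).totalDegree = m.sum fun _ e => e := by
    unfold totalDegree
    exact Finset.exists_mem_eq_sup _ (by
      rw [Finset.nonempty_iff_ne_empty, Ne, support_eq_empty]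
      exact h) _
  have h2 : coeff (m + Finsupp.single i 1) P ≠ 0 := by
    intro h0
    rw [mem_support_iff, coeff_pderiv, h0, zero_mul] at hm
    exact hm rfl
  have h3 := le_totalDegree (mem_support_iff.2 h2)
  rw [Finsupp.sum_add_index' (fun _ => rfl) (fun _ _ _ => rfl),
    Finsupp.sum_single_index rfl] at h3
  omega

theorem ne1 : ∀ l : Fin 3, ¬ l + 1 = l := by decide
theorem ne2 : ∀ l : Fin 3, ¬ l + 2 = l := by decide
theorem ne3 : ∀ l : Fin 3, ¬ l + 2 = l + 1 := by decide

theorem fin3 : ∀ i j : Fin 3, i = j ∨ i = j + 1 ∨ i = j + 2 := by decide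

/-- a prime factor of `G` which vanishes at `s` does not divide both derivatives -/
theorem fac_der [CharZero k] {G : MvPolynomial (Fin 3) k} {d : ℕ} (hG : G.IsHomogeneous d)
    (hsq : Squarefree G) {s : Fin 3 → k} {j : Fin 3} (hsj : s j ≠ 0)
    {P : MvPolynomial (Fin 3) k} (hP : Prime P) (hPG : P ∣ G) (hPs : eval s P = 0) :
    ¬ P ∣ pderiv (j + 1) G ∨ ¬ P ∣ pderiv (j + 2) G := by
  by_contra hcon
  push Not at hcon
  obtain ⟨h1, h2⟩ := hcon
  have hj : P ∣ pderiv j G := by
    have h3 : P ∣ X j * pderiv j G := by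
      have h4 := hG.sum_X_mul_pderiv
      have h5 : ∑ i, X i * pderiv i G = X j * pderiv j G + X (j + 1) * pderiv (j + 1) G +
          X (j + 2) * pderiv (j + 2) G := by
        rw [Fin.sum_univ_three]
        fin_cases j
        · rfl
        · show _ = X 1 * pderiv 1 G + X 2 * pderiv 2 G + X 0 * pderiv 0 G
          ring
        · show _ = X 2 * pderiv 2 G + X 0 * pderiv 0 G + X 1 * pderiv 1 G
          ring
      have h6 : X j * pderiv j G = d • G - X (j + 1) * pderiv (j + 1) G -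
          X (j + 2) * pderiv (j + 2) G := by
        rw [← h4, h5]
        ring
      rw [h6]
      refine dvd_sub (dvd_sub ?_ (h1.mul_left _)) (h2.mul_left _)
      rw [nsmul_eq_mul]
      exact hPG.mul_left _
    rcases hP.dvd_or_dvd h3 with ⟨c, hc⟩ | h4
    · exfalso
      have h5 := congrArg (eval s) hc
      rw [eval_X, map_mul, hPs, zero_mul] at h5
      exact hsj h5
    · exact h4
  have hall : ∀ i, P ∣ pderiv i G := by
    intro i
    rcases fin3 i j with rfl | rfl | rfl
    · exact hj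
    · exact h1
    · exact h2
  obtain ⟨Q, hQ⟩ := hPG
  obtain ⟨i, hi⟩ : ∃ i, pderiv i P ≠ 0 := by
    by_contra hcon
    push Not at hcon
    have h3 := const_of_pderiv hcon
    rw [h3, eval_C] at hPs
    rw [hPs, C_0] at h3
    exact hP.ne_zero h3
  have h3 : P ∣ Q * pderiv i P := by
    have h4 := hall i
    rw [hQ, Derivation.leibniz, smul_eq_mul, smul_eq_mul] at h4
    exact (dvd_add_right (dvd_mul_right P _)).1 h4
  rcases hP.dvd_or_dvd h3 with h4 | h4
  · apply hP.not_isUnit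
    apply hsq P
    rw [hQ]
    exact mul_dvd_mul_left P h4
  · exact not_dvd_pderiv hi h4

/-- a product of different primes -/
theorem prod_dvd {S : Multiset (MvPolynomial (Fin 3) k)} (hS : ∀ P ∈ S, Prime P)
    (hsq : Squarefree S.prod) {M : ℕ} {Q : A2 k} (hQ : ∀ P ∈ S, aeval xa P ^ M ∣ Q) :
    aeval xa S.prod ^ M ∣ Q := by
  induction S using Multiset.induction_on with
  | empty => simp
  | cons P T ih =>
    rw [Multiset.prod_cons] at hsq ⊢
    have h1 := ih (fun P' h => hS P' (Multiset.mem_cons_of_mem h))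
      (hsq.squarefree_of_dvd (dvd_mul_left _ _)) fun P' h => hQ P' (Multiset.mem_cons_of_mem h)
    obtain ⟨c, hc⟩ := h1
    have h2 := hQ P (Multiset.mem_cons_self P T)
    have hP := hS P (Multiset.mem_cons_self P T)
    have h3 : ¬ P ∣ T.prod := by
      intro h
      exact hP.not_isUnit (hsq P (mul_dvd_mul_left P h))
    have h4 : Prime (aeval xa P : A2 k) := by
      rw [Pool.Agent.H42.SM.aeval_xa]
      exact Pool.Agent.H42.SM.prime_ren Sum.inl_injective hP
    have h5 : ¬ (aeval xa P : A2 k) ∣ aeval xa T.prod ^ M := by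
      intro h
      have h6 := h4.dvd_of_dvd_pow h
      rw [Pool.Agent.H42.SM.aeval_xa, Pool.Agent.H42.SM.aeval_xa] at h6
      exact h3 (Pool.Agent.H42.SM.dvd_ren h6)
    rw [hc] at h2
    have h6 := h4.pow_dvd_of_dvd_mul_left M h5 h2
    rw [map_mul, mul_pow, hc, mul_comm]
    exact mul_dvd_mul_left _ h6

end Fac

/-! ### The identities at the node -/

section Core

open Pool.Agent.H16.SM

variable {k : Type} [Field k]

/-- the quadratic form at a translate of the direction -/
theorem hs_tr {L : Type} [CommRing L] [Algebra k L] {G : MvPolynomial (Fin 3) k} {d : ℕ}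
    (hG : G.IsHomogeneous d) (x y : Fin 3 → L) (t : L) :
    hs G x (fun i => y i - t * x i) = hs G x y - 2 * t * ((d - 1 : ℕ) : L) * dp (gr G x) y +
      t ^ 2 * ((d - 1 : ℕ) : L) * (d * aeval x G) := by
  have hx : ∀ z : Fin 3 → L, ∑ i, ∑ j, aeval x (pderiv i (pderiv j G)) * x i * z j =
      ((d - 1 : ℕ) : L) * dp (gr G x) z := by
    intro z
    rw [Finset.sum_comm]
    unfold dp
    rw [Finset.mul_sum]
    refine Finset.sum_congr rfl fun j _ => ?_
    have e2 := euler (hG.pderiv (i := j)) x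
    unfold dp gr at e2
    have e3 : ∑ i, aeval x (pderiv i (pderiv j G)) * x i * z j =
        (∑ i, x i * aeval x (pderiv i (pderiv j G))) * z j := by
      rw [Finset.sum_mul]
      refine Finset.sum_congr rfl fun i _ => ?_
      ring
    rw [e3, e2]
    unfold gr
    ring
  have hx' : ∀ z : Fin 3 → L, ∑ i, ∑ j, aeval x (pderiv i (pderiv j G)) * z i * x j =
      ((d - 1 : ℕ) : L) * dp (gr G x) z := by
    intro z
    rw [← hx z, Finset.sum_comm]
    refine Finset.sum_congr rfl fun i _ => Finset.sum_congr rfl fun j _ => ?_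
    rw [Pool.Agent.H42.SM.pd_comm]
    ring
  have hE : dp (gr G x) x = d * aeval x G := by
    rw [← euler hG x]
    unfold dp
    refine Finset.sum_congr rfl fun i _ => ?_
    ring
  have e1 : hs G x (fun i => y i - t * x i) = hs G x y -
      t * (∑ i, ∑ j, aeval x (pderiv i (pderiv j G)) * x i * y j) -
      t * (∑ i, ∑ j, aeval x (pderiv i (pderiv j G)) * y i * x j) +
      t ^ 2 * (∑ i, ∑ j, aeval x (pderiv i (pderiv j G)) * x i * x j) := by
    unfold hs
    rw [Finset.mul_sum, Finset.mul_sum, Finset.mul_sum, ← Finset.sum_sub_distrib,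
      ← Finset.sum_sub_distrib, ← Finset.sum_add_distrib]
    refine Finset.sum_congr rfl fun i _ => ?_
    rw [Finset.mul_sum, Finset.mul_sum, Finset.mul_sum, ← Finset.sum_sub_distrib,
      ← Finset.sum_sub_distrib, ← Finset.sum_add_distrib]
    refine Finset.sum_congr rfl fun j _ => ?_
    ring
  rw [e1, hx, hx', hx, hE]
  ring

variable (G : MvPolynomial (Fin 3) k) (d : ℕ) (j : Fin 3) (h r1 r2 : MvPolynomial (Fin 3) k)

/-- the direction on the hypersurface -/
noncomputable def Yn : Fin 3 → A2 k := fun i =>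
  yn G j r1 r2 i - X (Sum.inr 0) * aeval xa h * xa i

theorem yn0 : yn G j r1 r2 j = 0 := by
  unfold yn
  rw [if_pos rfl]

theorem yn1 : yn G j r1 r2 (j + 1) =
    X (Sum.inr 0) * aeval xa r1 + X (Sum.inr 1) * aeval xa (pderiv (j + 2) G) := by
  unfold yn
  rw [if_neg (by revert j; decide), if_pos rfl]

theorem yn2 : yn G j r1 r2 (j + 2) =
    X (Sum.inr 0) * aeval xa r2 - X (Sum.inr 1) * aeval xa (pderiv (j + 1) G) := by
  unfold yn
  rw [if_neg (by revert j; decide), if_neg (by revert j; decide)]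

theorem dnx (i : Fin 3) : dn G j r1 r2 (xa i) = yn G j r1 r2 i := by
  unfold dn xa
  rw [mkDerivation_X]
  rfl

theorem dnl : dn G j r1 r2 (X (Sum.inr 0)) = 0 := by
  unfold dn
  rw [mkDerivation_X]
  rfl

variable {G d j h r1 r2}

/-- the first relation -/
theorem rel1 (hE : C (d : k) * h * G = pderiv (j + 1) G * r1 + pderiv (j + 2) G * r2) :
    gr G xa (j + 1) * yn G j r1 r2 (j + 1) + gr G xa (j + 2) * yn G j r1 r2 (j + 2) =
      X (Sum.inr 0) * ((d : A2 k) * aeval xa h * gA G) := by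
  have h1 := congrArg (aeval (xa (k := k))) hE
  rw [map_mul, map_mul, map_add, map_mul, map_mul, algHom_C, map_natCast] at h1
  rw [yn1, yn2]
  unfold gr gA
  linear_combination (-(X (Sum.inr 0) : A2 k)) * h1

/-- the form at the direction -/
theorem rel2 (hE : C (d : k) * h * G = pderiv (j + 1) G * r1 + pderiv (j + 2) G * r2) :
    dp (gr G xa) (yn G j r1 r2) = X (Sum.inr 0) * ((d : A2 k) * aeval xa h * gA G) := by
  rw [← rel1 hE]
  unfold dp
  rw [sum3 _ j, yn0, mul_zero, zero_add]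

theorem dG (P : MvPolynomial (Fin 3) k) :
    dn G j r1 r2 (aeval xa P) = dp (gr P xa) (yn G j r1 r2) := by
  rw [chain]
  unfold dp gr
  refine Finset.sum_congr rfl fun i _ => ?_
  rw [dnx]

/-- the second relation -/
theorem rel3 (hE : C (d : k) * h * G = pderiv (j + 1) G * r1 + pderiv (j + 2) G * r2) :
    hs G xa (yn G j r1 r2) + gr G xa (j + 1) * dn G j r1 r2 (yn G j r1 r2 (j + 1)) +
      gr G xa (j + 2) * dn G j r1 r2 (yn G j r1 r2 (j + 2)) =
      X (Sum.inr 0) * ((d : A2 k) * gA G * (dn G j r1 r2 (aeval xa h) +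
        X (Sum.inr 0) * (d : A2 k) * aeval xa h ^ 2)) := by
  have h1 := congrArg (dn G j r1 r2) (rel1 hE)
  have hd : dn G j r1 r2 (d : A2 k) = 0 := Derivation.map_natCast _ _
  have h2 : dn G j r1 r2 (gA G) = X (Sum.inr 0) * ((d : A2 k) * aeval xa h * gA G) := by
    unfold gA
    rw [dG, rel2 hE]
    rfl
  have h3 : ∀ i, dn G j r1 r2 (gr G xa i) =
      ∑ l, aeval xa (pderiv l (pderiv i G)) * yn G j r1 r2 l := by
    intro i
    show dn G j r1 r2 (aeval xa (pderiv i G)) = _
    rw [dG]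
    rfl
  have h4 : hs G xa (yn G j r1 r2) = dn G j r1 r2 (gr G xa (j + 1)) * yn G j r1 r2 (j + 1) +
      dn G j r1 r2 (gr G xa (j + 2)) * yn G j r1 r2 (j + 2) := by
    unfold hs
    rw [Finset.sum_comm, sum3 _ j, h3, h3, Finset.sum_mul, Finset.sum_mul, yn0]
    simp only [mul_zero, Finset.sum_const_zero, zero_add]
  simp only [Derivation.leibniz, map_add, smul_eq_mul, h2, hd, dnl] at h1
  rw [h4]
  linear_combination h1

/-- the point is on the hypersurface -/
theorem Yn0 (hG : G.IsHomogeneous d)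
    (hE : C (d : k) * h * G = pderiv (j + 1) G * r1 + pderiv (j + 2) G * r2) :
    dp (gr G xa) (Yn G j h r1 r2) = 0 := by
  have h1 := rel2 hE
  have h2 := euler hG (xa (k := k))
  unfold dp at h1 h2 ⊢
  unfold Yn
  have h3 : ∑ i, gr G xa i * (yn G j r1 r2 i - X (Sum.inr 0) * aeval xa h * xa i) =
      ∑ i, gr G xa i * yn G j r1 r2 i - X (Sum.inr 0) * aeval xa h * ∑ i, xa i * gr G xa i := by
    rw [Finset.mul_sum, ← Finset.sum_sub_distrib]
    refine Finset.sum_congr rfl fun i _ => ?_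
    ring
  rw [h3, h1, h2]
  unfold gA
  ring

/-- the coordinate `σ` -/
theorem sig (hG : G.IsHomogeneous d)
    (hE : C (d : k) * h * G = pderiv (j + 1) G * r1 + pderiv (j + 2) G * r2) (l : Fin 3)
    (hl : l = j + 1 ∨ l = j + 2) : ∃ σ : A2 k, (d : A2 k) * gA G * σ = gr G xa l * wn G d j h r1 r2 +
      hs G xa (Yn G j h r1 r2) * (xa (l + 1) * Yn G j h r1 r2 (l + 2) -
        xa (l + 2) * Yn G j h r1 r2 (l + 1)) := by
  have h1 := rel1 hE
  have h3 := rel3 hE
  have h4 : hs G xa (Yn G j h r1 r2) = hs G xa (yn G j r1 r2) -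
      2 * (X (Sum.inr 0) * aeval xa h) * ((d - 1 : ℕ) : A2 k) *
        (X (Sum.inr 0) * ((d : A2 k) * aeval xa h * gA G)) +
      (X (Sum.inr 0) * aeval xa h) ^ 2 * ((d - 1 : ℕ) : A2 k) * ((d : A2 k) * gA G) := by
    have h5 := hs_tr hG (xa (k := k)) (yn G j r1 r2) (X (Sum.inr 0) * aeval xa h)
    rw [rel2 hE] at h5
    exact h5
  unfold wn
  rw [h4]
  have e1 : ∀ i, Yn G j h r1 r2 i = yn G j r1 r2 i - X (Sum.inr 0) * aeval xa h * xa i :=
    fun _ => rfl
  rcases hl with rfl | rfl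
  · refine ⟨xa j * (aeval xa h * X (Sum.inr 2) * gr G xa (j + 1) -
      yn G j r1 r2 (j + 2) * X (Sum.inr 0) * (dn G j r1 r2 (aeval xa h) +
        X (Sum.inr 0) * (d : A2 k) * aeval xa h ^ 2) +
      X (Sum.inr 0) * aeval xa h * dn G j r1 r2 (yn G j r1 r2 (j + 2)) +
      X (Sum.inr 0) ^ 2 * aeval xa h ^ 2 * ((d - 1 : ℕ) : A2 k) * yn G j r1 r2 (j + 2)), ?_⟩
    rw [ix1, ix2, e1, e1, yn0]
    linear_combination (-(xa j * dn G j r1 r2 (yn G j r1 r2 (j + 2)))) * h1 +
      xa j * yn G j r1 r2 (j + 2) * h3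
  · refine ⟨xa j * (aeval xa h * X (Sum.inr 2) * gr G xa (j + 2) +
      yn G j r1 r2 (j + 1) * X (Sum.inr 0) * (dn G j r1 r2 (aeval xa h) +
        X (Sum.inr 0) * (d : A2 k) * aeval xa h ^ 2) -
      X (Sum.inr 0) * aeval xa h * dn G j r1 r2 (yn G j r1 r2 (j + 1)) -
      X (Sum.inr 0) ^ 2 * aeval xa h ^ 2 * ((d - 1 : ℕ) : A2 k) * yn G j r1 r2 (j + 1)), ?_⟩
    rw [ix3, ix4, e1, e1, yn0]
    linear_combination xa j * dn G j r1 r2 (yn G j r1 r2 (j + 1)) * h1 -
      xa j * yn G j r1 r2 (j + 1) * h3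

end Core

/-! ### The charts -/

section Chart

open Pool.Agent.H16.SM

variable {k : Type} [Field k]

theorem ev_map {L L' : Type} [CommRing L] [CommRing L'] [Algebra k L] [Algebra k L']
    (φ : L →ₐ[k] L') (x y : Fin 3 → L) (w : L) (N : R2 k) :
    φ (ev x y w N) = ev (fun i => φ (x i)) (fun i => φ (y i)) (φ w) N := by
  unfold ev
  rw [Polynomial.coe_eval₂RingHom, Polynomial.coe_eval₂RingHom]
  have h1 : (φ : L →+* L').comp ((aeval (Sum.elim x y) : A2 k →ₐ[k] L) : A2 k →+* L) =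
      ((aeval (Sum.elim (fun i => φ (x i)) fun i => φ (y i)) : A2 k →ₐ[k] L') :
        A2 k →+* L') := by
    have h2 : φ.comp (aeval (Sum.elim x y) : A2 k →ₐ[k] L) =
        aeval (Sum.elim (fun i => φ (x i)) fun i => φ (y i)) := by
      refine MvPolynomial.algHom_ext fun i => ?_
      rw [AlgHom.comp_apply, aeval_X, aeval_X]
      rcases i with i | i <;> rfl
    rw [← h2]
    rfl
  rw [← h1]
  exact Polynomial.hom_eval₂ N _ (φ : L →+* L') w

theorem gr_map {L L' : Type} [CommRing L] [CommRing L'] [Algebra k L] [Algebra k L']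
    (φ : L →ₐ[k] L') (G : MvPolynomial (Fin 3) k) (x : Fin 3 → L) (i : Fin 3) :
    gr G (fun i => φ (x i)) i = φ (gr G x i) := by
  unfold gr
  rw [← AlgHom.comp_apply, comp_aeval]

theorem hs_map {L L' : Type} [CommRing L] [CommRing L'] [Algebra k L] [Algebra k L']
    (φ : L →ₐ[k] L') (G : MvPolynomial (Fin 3) k) (x y : Fin 3 → L) :
    hs G (fun i => φ (x i)) (fun i => φ (y i)) = φ (hs G x y) := by
  unfold hs
  rw [map_sum]
  refine Finset.sum_congr rfl fun i _ => ?_
  rw [map_sum]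
  refine Finset.sum_congr rfl fun j _ => ?_
  rw [map_mul, map_mul]
  congr 2
  rw [← AlgHom.comp_apply, comp_aeval]

/-- the denominator of `f` is a power of `u` -/
def Den (u : A2 k) (f : F2 k) : Prop :=
  ∃ (a : ℕ) (c : A2 k), algebraMap (A2 k) (F2 k) u ^ a * f = algebraMap (A2 k) (F2 k) c

theorem Den.add {u : A2 k} {f g : F2 k} (hf : Den u f) (hg : Den u g) : Den u (f + g) := by
  obtain ⟨a, c, h⟩ := hf
  obtain ⟨a', c', h'⟩ := hg
  refine ⟨a + a', u ^ a' * c + u ^ a * c', ?_⟩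
  rw [map_add, map_mul, map_mul, map_pow, map_pow, ← h, ← h']
  ring

theorem Den.mul {u : A2 k} {f g : F2 k} (hf : Den u f) (hg : Den u g) : Den u (f * g) := by
  obtain ⟨a, c, h⟩ := hf
  obtain ⟨a', c', h'⟩ := hg
  refine ⟨a + a', c * c', ?_⟩
  rw [map_mul, ← h, ← h']
  ring

theorem Den.of (u c : A2 k) : Den u (algebraMap (A2 k) (F2 k) c) := ⟨0, c, by rw [pow_zero, one_mul]⟩

theorem Den.pow {u : A2 k} {f : F2 k} (hf : Den u f) (n : ℕ) : Den u (f ^ n) := by
  induction n with
  | zero => rw [pow_zero, ← map_one (algebraMap (A2 k) (F2 k))]; exact Den.of u 1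
  | succ n ih => rw [pow_succ]; exact ih.mul hf

theorem den_evl {u : A2 k} {l : Fin 3} {g : F2 k} {x q s : Fin 3 → F2 k} (hx : ∀ i, Den u (x i))
    (h1 : Den u (g * q (l + 1))) (h2 : Den u (g * q (l + 2))) (h3 : Den u (g * s l)) (P : P2 k) :
    Den u (evl l g x q s P) := by
  have hB : ∀ c : B2 k, Den u (aeval (Sum.elim x ![g * q (l + 1), g * q (l + 2)]) c) := by
    intro c
    induction c using MvPolynomial.induction_on with
    | C a =>
      rw [algHom_C]
      have e : algebraMap k (F2 k) a = algebraMap (A2 k) (F2 k) (C a) :=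
        IsScalarTower.algebraMap_apply k (A2 k) (F2 k) a
      rw [e]
      exact Den.of u _
    | add p q hp hq => rw [map_add]; exact hp.add hq
    | mul_X p i hp =>
      rw [map_mul, aeval_X]
      refine hp.mul ?_
      rcases i with i | i
      · exact hx i
      · fin_cases i
        · exact h1
        · exact h2
  unfold evl
  rw [Polynomial.coe_eval₂RingHom]
  induction P using Polynomial.induction_on' with
  | add p q hp hq => rw [Polynomial.eval₂_add]; exact hp.add hq
  | monomial n c =>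
    rw [Polynomial.eval₂_monomial]
    exact (hB c).mul (h3.pow n)

theorem chart [CharZero k] (hSCL : T_SCL) (hVAL : T_VAL) {G : MvPolynomial (Fin 3) k} {d : ℕ}
    (hG : G.IsHomogeneous d) {j : Fin 3} {h r1 r2 : MvPolynomial (Fin 3) k}
    (hE : C (d : k) * h * G = pderiv (j + 1) G * r1 + pderiv (j + 2) G * r2) {l : Fin 3}
    (hl : l = j + 1 ∨ l = j + 2) (hne : pderiv l G ≠ 0) {e n M : ℕ} {N : R2 k} (hI : Inv N)
    (hB : BHN e n N) (hdv : gp G ^ M ∣ Psi G d l N) :
    ∃ a, gA G ^ M ∣ gr G xa l ^ a * psn G d j h r1 r2 N := by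
  obtain ⟨σ, hσ⟩ := sig hG hE l hl
  obtain ⟨ι, hι⟩ : ∃ ι : A2 k →ₐ[k] F2 k, ι = IsScalarTower.toAlgHom k (A2 k) (F2 k) := ⟨_, rfl⟩
  have hιa : ∀ c, ι c = algebraMap (A2 k) (F2 k) c := fun c => by rw [hι]; rfl
  have hinj : Function.Injective ι := by
    intro a b hab
    rw [hιa, hιa] at hab
    exact IsFractionRing.injective (A2 k) (F2 k) hab
  have hu : gr G (xa (k := k)) l ≠ 0 := by
    show (aeval xa (pderiv l G) : A2 k) ≠ 0
    rw [Pool.Agent.H42.SM.aeval_xa]
    intro h0
    exact hne (rename_injective _ Sum.inl_injective (by rw [h0, map_zero]))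
  have hιu : ι (gr G (xa (k := k)) l) ≠ 0 := by
    intro h0
    exact hu (hinj (by rw [h0, map_zero]))
  obtain ⟨x', hx'⟩ : ∃ x' : Fin 3 → F2 k, x' = fun i => ι (xa i) := ⟨_, rfl⟩
  obtain ⟨Y', hY'⟩ : ∃ Y' : Fin 3 → F2 k, Y' = fun i => ι (Yn G j h r1 r2 i) := ⟨_, rfl⟩
  have hgr : ∀ i, gr G x' i = ι (gr G xa i) := fun i => by rw [hx', gr_map]
  have hhs : hs G x' Y' = ι (hs G xa (Yn G j h r1 r2)) := by rw [hx', hY', hs_map]
  have hdp : gr G x' l * Y' l + gr G x' (l + 1) * Y' (l + 1) + gr G x' (l + 2) * Y' (l + 2) = 0 := by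
    have h1 := congrArg ι (Yn0 hG hE)
    unfold dp at h1
    rw [sum3 _ l, map_add, map_add, map_mul, map_mul, map_mul, map_zero] at h1
    rw [hgr, hgr, hgr, hY']
    exact h1
  obtain ⟨η, hη⟩ : ∃ η, η = hs G x' Y' := ⟨_, rfl⟩
  obtain ⟨s, hs⟩ : ∃ s : Fin 3 → F2 k, s = fun i => if i = l then ι σ else if i = l + 1 then
      (-(η * Y' (l + 2)) + gr G x' (l + 1) * ι σ) / gr G x' l else
      (gr G x' (l + 2) * ι σ + η * Y' (l + 1)) / gr G x' l := ⟨_, rfl⟩
  have hs0 : s l = ι σ := by rw [hs]; exact if_pos rfl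
  have hul : gr G x' l ≠ 0 := by rw [hgr]; exact hιu
  have hs1 : s (l + 1) * gr G x' l = -(η * Y' (l + 2)) + gr G x' (l + 1) * ι σ := by
    rw [hs]
    show ite _ _ _ * _ = _
    rw [if_neg (ne1 l), if_pos rfl, div_mul_cancel₀ _ hul]
  have hs2 : s (l + 2) * gr G x' l = gr G x' (l + 2) * ι σ + η * Y' (l + 1) := by
    rw [hs]
    show ite _ _ _ * _ = _
    rw [if_neg (ne2 l), if_neg (ne3 l), div_mul_cancel₀ _ hul]
  have hJP : JP G x' Y' s := by
    refine ⟨?_, fun i => ?_⟩
    · unfold dp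
      rw [sum3 _ l]
      exact hdp
    · rw [← hη]
      unfold cr
      rcases fin3 i l with rfl | rfl | rfl
      · apply mul_left_cancel₀ hul
        linear_combination gr G x' (i + 1) * hs2 - gr G x' (i + 2) * hs1 + η * hdp
      · rw [ix1, ix2, hs0]
        linear_combination -hs2
      · rw [ix3, ix4, hs0]
        linear_combination hs1
  have hxe : x' l * gr G x' l + x' (l + 1) * gr G x' (l + 1) + x' (l + 2) * gr G x' (l + 2) =
      (d : F2 k) * ι (gA G) := by
    have h1 := euler hG x'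
    unfold dp at h1
    rw [sum3 _ l] at h1
    rw [h1, hx']
    unfold gA
    rw [← AlgHom.comp_apply, comp_aeval]
  have hw : dp x' s = ι (wn G d j h r1 r2) := by
    have h1 := congrArg ι hσ
    rw [map_mul, map_mul, map_natCast, map_add, map_mul, map_mul, map_sub, map_mul, map_mul,
      ← hhs, ← hη, ← hgr] at h1
    apply mul_left_cancel₀ hul
    unfold dp
    rw [sum3 _ l, hs0]
    have hx1 : ∀ i, ι (xa i) = x' i := fun i => by rw [hx']
    have hY1 : ∀ i, ι (Yn G j h r1 r2 i) = Y' i := fun i => by rw [hY']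
    rw [hx1, hx1, hY1, hY1] at h1
    linear_combination h1 + x' (l + 1) * hs1 + x' (l + 2) * hs2 + ι σ * hxe
  have hval := hVAL k G d hG (F2 k) x' Y' s l (gr G x' l)⁻¹ hJP (inv_mul_cancel₀ hul) N
  have hscl : ev x' Y' (ι (wn G d j h r1 r2)) N = ι (psn G d j h r1 r2 N) := by
    have h1 := hSCL k e n N hI hB (F2 k) x' (fun i => ι (yn G j r1 r2 i)) (ι (wn G d j h r1 r2)) 1 1
      (-ι (X (Sum.inr 0) * aeval xa h))
    have h2 : ι (psn G d j h r1 r2 N) = ev x' (fun i => ι (yn G j r1 r2 i))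
        (ι (wn G d j h r1 r2)) N := by
      rw [hx', ← ev_map]
      rfl
    rw [h2]
    have h3 : (fun i => (1 : F2 k) * x' i) = x' := by
      funext i
      rw [one_mul]
    have h4 : (fun i => (1 : F2 k) * 1 * ι (yn G j r1 r2 i) +
        -ι (X (Sum.inr 0) * aeval xa h) * x' i) = Y' := by
      funext i
      rw [hY', hx']
      show _ = ι (yn G j r1 r2 i - X (Sum.inr 0) * aeval xa h * xa i)
      rw [map_sub, map_mul ι _ (xa i)]
      ring
    rw [h3, h4, one_pow, one_pow, one_pow, one_mul, one_mul, one_mul] at h1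
    exact h1
  rw [hw, hscl] at hval
  obtain ⟨P', hP'⟩ := hdv
  have h5 := hval.1
  rw [hP', map_mul, map_pow, hval.2] at h5
  obtain ⟨a, c, hac⟩ : Den (gr G xa l) (evl l (gr G x' l)⁻¹ x' Y' s P') := by
    have hinv : ∀ c : A2 k, Den (gr G xa l) ((gr G x' l)⁻¹ * ι c) := by
      intro c
      refine ⟨1, c, ?_⟩
      rw [pow_one, ← hιa, ← hιa, hgr, mul_inv_cancel_left₀ hιu]
    refine den_evl (fun i => ?_) ?_ ?_ ?_ P'
    · rw [hx']
      show Den _ (ι (xa i))
      rw [hιa]
      exact Den.of _ _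
    · rw [hY']
      exact hinv _
    · rw [hY']
      exact hinv _
    · rw [hs0]
      exact hinv _
  refine ⟨a, c, ?_⟩
  apply hinj
  have h6 : aeval x' G = ι (gA G) := by
    rw [hx']
    unfold gA
    rw [← AlgHom.comp_apply, comp_aeval]
  rw [← hιa, ← hιa] at hac
  rw [map_mul, map_pow, map_mul, map_pow, ← h5, h6, ← hac]
  ring

end Chart

end Pool.Agent.H21.ND.V

namespace Pool.Agent.H21.ND

open MvPolynomial SC Pool.Agent.H84.SM Pool.Agent.H84.ND Pool.Agent.H21.ND.V

/-- NDV: divisibility by powers of `G` for the substitution at a node -/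
theorem pf_NDV (hSCL : Pool.Agent.H84.SM.T_SCL) (hVAL : Pool.Agent.H84.SM.T_VAL) : T_NDV := by
  classical
  intro k _ _ _ G d hd hG hsq s j h r1 r2 hsj hN
  have hG0 : G ≠ 0 := hsq.ne_zero
  obtain ⟨F, hF⟩ : ∃ F, F = UniqueFactorizationMonoid.factors G := ⟨_, rfl⟩
  have hFp : ∀ P ∈ F, Prime P := fun P hP => by
    rw [hF] at hP
    exact UniqueFactorizationMonoid.prime_of_factor P hP
  have hFG : Associated F.prod G := by
    rw [hF]
    exact UniqueFactorizationMonoid.factors_prod hG0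
  obtain ⟨F1, hF1⟩ : ∃ F1, F1 = F.filter fun P => eval s P = 0 := ⟨_, rfl⟩
  obtain ⟨F2, hF2⟩ : ∃ F2, F2 = F.filter fun P => ¬ eval s P = 0 := ⟨_, rfl⟩
  have hF12 : F1.prod * F2.prod = F.prod := by
    rw [← Multiset.prod_add, hF1, hF2, Multiset.filter_add_not]
  have hsqF : Squarefree F.prod := hsq.squarefree_of_dvd hFG.dvd
  refine ⟨F2.prod, ?_, ?_⟩
  · rw [map_multiset_prod]
    apply Multiset.prod_ne_zero
    intro h0
    obtain ⟨P, hP, hP0⟩ := Multiset.mem_map.1 h0
    rw [hF2] at hP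
    exact (Multiset.mem_filter.1 hP).2 hP0
  · intro n M τ N hS
    obtain ⟨hI, ⟨e, he, hB⟩, hdv⟩ := hS
    have key : aeval xa F1.prod ^ M ∣ psn G d j h r1 r2 N := by
      refine prod_dvd (fun P hP => ?_) (hsqF.squarefree_of_dvd ⟨F2.prod, hF12.symm⟩)
        fun P hP => ?_
      · rw [hF1] at hP
        exact hFp P (Multiset.mem_filter.1 hP).1
      · rw [hF1] at hP
        obtain ⟨hPF, hPs⟩ := Multiset.mem_filter.1 hP
        have hPp := hFp P hPF
        have hPG : P ∣ G := (Multiset.dvd_prod hPF).trans hFG.dvd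
        obtain ⟨l, hl, hPl⟩ : ∃ l, (l = j + 1 ∨ l = j + 2) ∧ ¬ P ∣ pderiv l G := by
          rcases fac_der hG hsq hsj hPp hPG hPs with h1 | h1
          · exact ⟨_, Or.inl rfl, h1⟩
          · exact ⟨_, Or.inr rfl, h1⟩
        have hne : pderiv l G ≠ 0 := by
          intro h0
          exact hPl (by rw [h0]; exact dvd_zero _)
        obtain ⟨a, ha⟩ := chart hSCL hVAL hG hN.eq hl hne hI hB (hdv l)
        have h4 : Prime (aeval xa P : A2 k) := by
          rw [Pool.Agent.H42.SM.aeval_xa]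
          exact Pool.Agent.H42.SM.prime_ren Sum.inl_injective hPp
        refine h4.pow_dvd_of_dvd_mul_left M (a := gr G xa l ^ a) ?_ ?_
        · intro h5
          have h6 := h4.dvd_of_dvd_pow h5
          unfold gr at h6
          rw [Pool.Agent.H42.SM.aeval_xa, Pool.Agent.H42.SM.aeval_xa] at h6
          exact hPl (Pool.Agent.H42.SM.dvd_ren h6)
        · refine (pow_dvd_pow_of_dvd ?_ M).trans ha
          exact map_dvd (aeval (xa (k := k))) hPG
    have h1 : gA G ∣ aeval xa F.prod := map_dvd (aeval (xa (k := k))) hFG.symm.dvd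
    refine (pow_dvd_pow_of_dvd h1 M).trans ?_
    rw [← hF12, map_mul, mul_pow, mul_comm]
    exact mul_dvd_mul_left _ key

end Pool.Agent.H21.ND
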